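import Pool.Agent.H.MP_53e59f_lc.SO.RTs

/-!
# The number of lists with many returns

Like `SN.C_card` (file SN/Sum.lean, copy and adapt the proof): induction on `K` for all `L`; step: `C_sub`,
`(C s L (K+1)).ncard ≤ ∑ t ∈ Icc 1 L, (RT s t).ncard * (C s (L - t) K).ncard`, induction hypothesis
`21 ^ K * (C s (L-t) K).ncard ≤ 20 ^ K * (s^2)^(L-t)` and `RT_sum` (black box).
-/

namespace Pool.Agent.SO

open Pool.Agent.SN

private theorem Sum_im {α β γ : Type} (f : α → β → γ) {A : Set α} {B : Set β} (hA : A.Finite)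
    (hB : B.Finite) : (Set.image2 f A B).ncard ≤ A.ncard * B.ncard := by
  rw [← Set.image_prod, ← Set.ncard_prod]
  exact Set.ncard_image_le (hA.prod hB)

private theorem Sum_un {γ : Type} (T : Finset ℕ) (A : ℕ → Set γ) (hA : ∀ t, (A t).Finite) :
    (⋃ t ∈ T, A t).ncard ≤ ∑ t ∈ T, (A t).ncard := by
  classical
  induction T using Finset.induction_on with
  | empty => simp
  | insert t T ht ih =>
    rw [Finset.sum_insert ht, Finset.set_biUnion_insert]
    exact (Set.ncard_union_le _ _).trans (Nat.add_le_add le_rfl ih)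

theorem C_card {s : ℕ} (hs : 16 ≤ s) (K L : ℕ) :
    21 ^ K * (C s L K).ncard ≤ 20 ^ K * (s ^ 2) ^ L := by
  induction K generalizing L with
  | zero =>
    rw [pow_zero, one_mul, pow_zero, one_mul]
    have h1 : (C s L 0).ncard ≤ (W (Fin s × Fin s) L).ncard :=
      Set.ncard_le_ncard (fun _ h => h.1) (W_fin (Fin s × Fin s) L)
    refine h1.trans (le_of_eq ?_)
    rw [W_card, Nat.card_prod, Nat.card_eq_fintype_card, Fintype.card_fin, sq]
  | succ K ih =>
    have h1 : (C s L (K + 1)).ncard ≤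
        ∑ t ∈ Finset.Icc 1 L, (RT s t).ncard * (C s (L - t) K).ncard := by
      refine (Set.ncard_le_ncard (C_sub s L K) ?_).trans ?_
      · refine Set.Finite.biUnion (Finset.finite_toSet _) fun t _ => ?_
        exact (RT_fin s t).image2 _ (C_fin s (L - t) K)
      · refine (Sum_un _ _ fun t => (RT_fin s t).image2 _ (C_fin s (L - t) K)).trans ?_
        exact Finset.sum_le_sum fun t _ => Sum_im _ (RT_fin s t) (C_fin s (L - t) K)
    have hs0 : (0 : ℚ) < (s : ℚ) ^ 2 := by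
      have : (0 : ℚ) < s := by exact_mod_cast (by omega : 0 < s)
      positivity
    have h2 : ∀ t ∈ Finset.Icc 1 L, ((21 : ℚ) ^ K * ((RT s t).ncard * (C s (L - t) K).ncard : ℕ)) ≤
        (20 ^ K * ((s : ℚ) ^ 2) ^ L) * (((RT s t).ncard : ℚ) / ((s : ℚ) ^ 2) ^ t) := by
      intro t ht
      rw [Finset.mem_Icc] at ht
      have e1 : (21 : ℚ) ^ K * (C s (L - t) K).ncard ≤ 20 ^ K * ((s : ℚ) ^ 2) ^ (L - t) := by
        exact_mod_cast ih (L - t)
      have e3 : (0 : ℚ) < ((s : ℚ) ^ 2) ^ t := pow_pos hs0 t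
      have e5 : ((s : ℚ) ^ 2) ^ L = ((s : ℚ) ^ 2) ^ t * ((s : ℚ) ^ 2) ^ (L - t) := by
        rw [← pow_add, Nat.add_sub_cancel' ht.2]
      push_cast
      calc (21 : ℚ) ^ K * ((RT s t).ncard * (C s (L - t) K).ncard)
          = (RT s t).ncard * ((21 : ℚ) ^ K * (C s (L - t) K).ncard) := by ring
        _ ≤ (RT s t).ncard * (20 ^ K * ((s : ℚ) ^ 2) ^ (L - t)) :=
            mul_le_mul_of_nonneg_left e1 (by positivity)
        _ = (20 ^ K * ((s : ℚ) ^ 2) ^ L) * (((RT s t).ncard : ℚ) / ((s : ℚ) ^ 2) ^ t) := by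
            rw [e5]
            field_simp
    have h3 : ((21 : ℚ) ^ (K + 1) * (C s L (K + 1)).ncard) ≤
        20 ^ (K + 1) * ((s : ℚ) ^ 2) ^ L := by
      have e1 : ((C s L (K + 1)).ncard : ℚ) ≤
          ((∑ t ∈ Finset.Icc 1 L, (RT s t).ncard * (C s (L - t) K).ncard : ℕ) : ℚ) := by
        exact_mod_cast h1
      have e2 : (21 : ℚ) ^ K * (C s L (K + 1)).ncard ≤
          ∑ t ∈ Finset.Icc 1 L,
            (20 ^ K * ((s : ℚ) ^ 2) ^ L) * (((RT s t).ncard : ℚ) / ((s : ℚ) ^ 2) ^ t) := by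
        calc (21 : ℚ) ^ K * (C s L (K + 1)).ncard ≤ (21 : ℚ) ^ K *
            ((∑ t ∈ Finset.Icc 1 L, (RT s t).ncard * (C s (L - t) K).ncard : ℕ) : ℚ) :=
              mul_le_mul_of_nonneg_left e1 (by positivity)
          _ = ∑ t ∈ Finset.Icc 1 L,
              ((21 : ℚ) ^ K * ((RT s t).ncard * (C s (L - t) K).ncard : ℕ)) := by
              rw [Nat.cast_sum, Finset.mul_sum]
          _ ≤ _ := Finset.sum_le_sum h2
      rw [← Finset.mul_sum] at e2
      have e3 := mul_le_mul_of_nonneg_left (RT_sum hs L)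
        (show (0 : ℚ) ≤ 20 ^ K * ((s : ℚ) ^ 2) ^ L by positivity)
      have e4 : (21 : ℚ) ^ (K + 1) * (C s L (K + 1)).ncard =
          21 * ((21 : ℚ) ^ K * (C s L (K + 1)).ncard) := by ring
      have e5 : (20 : ℚ) ^ (K + 1) * ((s : ℚ) ^ 2) ^ L =
          20 * (20 ^ K * ((s : ℚ) ^ 2) ^ L) := by ring
      rw [e4, e5]
      linarith
    exact_mod_cast h3

end Pool.Agent.SO
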