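import Pool.Agent.H.MP_53e59f_lc.SO.Neg
import Pool.Agent.H.MP_53e59f_lc.SN.Tele

/-!
# The double sum

With `q t j = t.choose j * p ^ j * (1 - p) ^ (t - j)`, `0 ≤ q t j ≤ 1` (binomial theorem), so `(q t j)^2 ≤ q t j`. The terms `j = 0` give
`∑ t ∈ Icc 1 L, ((1 - p)^2)^t ≤ x / (1 - x)`, `x = (1 - p)^2 ≤ 225 / 961` (geometric sum), at most `225 / 736`. The terms `j ≥ 1`:
exchange the sums, `∑ t, (q t j)^2 ≤ ∑ t, q t j ≤ 1 / p ≤ 31 / 16` (`neg_le`, black box) and `∑ j ∈ Icc 1 L, 1 / (3 j + 1)^2 ≤ 1 / 3` (`SN.tele`).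
In all at most `225 / 736 + 31 / 48 ≤ 20 / 21`.
-/

namespace Pool.Agent.SO

private noncomputable def Dbl_q (p : ℚ) (t j : ℕ) : ℚ := (t.choose j : ℚ) * p ^ j * (1 - p) ^ (t - j)

private theorem Dbl_q_nonneg {p : ℚ} (hp : 0 ≤ p) (hp1 : p ≤ 1) (t j : ℕ) : 0 ≤ Dbl_q p t j := by
  have h : 0 ≤ 1 - p := by linarith
  unfold Dbl_q
  positivity

private theorem Dbl_q_le {p : ℚ} (hp : 0 ≤ p) (hp1 : p ≤ 1) (t j : ℕ) : Dbl_q p t j ≤ 1 := by
  rcases Nat.lt_or_ge t j with h | h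
  · unfold Dbl_q
    rw [Nat.choose_eq_zero_of_lt h]
    simp
  · have h1 := add_pow p (1 - p) t
    rw [add_sub_cancel, one_pow] at h1
    have h2 : ∑ m ∈ Finset.range (t + 1), Dbl_q p t m = 1 := by
      rw [h1]
      refine Finset.sum_congr rfl fun m _ => ?_
      unfold Dbl_q
      ring
    rw [← h2]
    exact Finset.single_le_sum (f := fun m => Dbl_q p t m)
      (fun m _ => Dbl_q_nonneg hp hp1 t m) (Finset.mem_range.2 (by omega))

private theorem Dbl_geo {x : ℚ} (hx0 : 0 ≤ x) (hx : x ≤ 225 / 961) (L : ℕ) :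
    ∑ t ∈ Finset.Icc 1 L, x ^ t ≤ 225 / 736 := by
  have h1 : ∀ L : ℕ, (∑ t ∈ Finset.Icc 1 L, x ^ t) * (1 - x) = x - x ^ (L + 1) := by
    intro L
    induction L with
    | zero => simp
    | succ L ih =>
      rw [Finset.sum_Icc_succ_top (by omega), add_mul, ih]
      ring
  have h2 := h1 L
  have h3 : 0 ≤ x ^ (L + 1) := by positivity
  have h4 : 0 ≤ ∑ t ∈ Finset.Icc 1 L, x ^ t := Finset.sum_nonneg fun t _ => by positivity
  have h5 : (∑ t ∈ Finset.Icc 1 L, x ^ t) * (736 / 961) ≤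
      (∑ t ∈ Finset.Icc 1 L, x ^ t) * (1 - x) :=
    mul_le_mul_of_nonneg_left (by linarith) h4
  linarith

private theorem Dbl_tele (L : ℕ) :
    ∑ j ∈ Finset.range L, (1 : ℚ) / (3 * ((j + 1 : ℕ) : ℚ) + 1) ^ 2 ≤ 1 / 3 := by
  have h1 := Pool.Agent.SN.tele L
  have h2 : ∑ t ∈ Finset.Icc 1 L, (1 : ℚ) / (3 * (t : ℚ) + 1) ^ 2 =
      ∑ j ∈ Finset.range L, (1 : ℚ) / (3 * ((j + 1 : ℕ) : ℚ) + 1) ^ 2 := by
    induction L with
    | zero => simp
    | succ L ih =>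
      rw [Finset.sum_Icc_succ_top (by omega), Finset.sum_range_succ, ih (Pool.Agent.SN.tele L)]
  rw [← h2]
  exact h1

theorem dbl_le {p : ℚ} (hp : 16 / 31 ≤ p) (hp1 : p ≤ 1) (L : ℕ) :
    ∑ t ∈ Finset.Icc 1 L, ∑ j ∈ Finset.range (t + 1),
      ((t.choose j : ℚ) * p ^ j * (1 - p) ^ (t - j)) ^ 2 / (3 * j + 1) ^ 2 ≤ 20 / 21 := by
  have hp0 : 0 < p := by linarith
  have hq0 := Dbl_q_nonneg hp0.le hp1
  have hq1 := Dbl_q_le hp0.le hp1
  have e1 : ∀ t : ℕ, ∑ j ∈ Finset.range (t + 1),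
      ((t.choose j : ℚ) * p ^ j * (1 - p) ^ (t - j)) ^ 2 / (3 * (j : ℚ) + 1) ^ 2 =
      ∑ j ∈ Finset.range t, Dbl_q p t (j + 1) ^ 2 / (3 * ((j + 1 : ℕ) : ℚ) + 1) ^ 2 +
        ((1 - p) ^ 2) ^ t := by
    intro t
    rw [Finset.sum_range_succ']
    congr 1
    rw [← pow_mul, mul_comm 2 t, pow_mul]
    simp
  rw [Finset.sum_congr rfl fun t _ => e1 t, Finset.sum_add_distrib]
  have hx : (1 - p) ^ 2 ≤ 225 / 961 := by
    have h1 : 1 - p ≤ 15 / 31 := by linarith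
    have h2 : 0 ≤ 1 - p := by linarith
    nlinarith
  have hA := Dbl_geo (sq_nonneg (1 - p)) hx L
  have hB : ∑ t ∈ Finset.Icc 1 L, ∑ j ∈ Finset.range t,
      Dbl_q p t (j + 1) ^ 2 / (3 * ((j + 1 : ℕ) : ℚ) + 1) ^ 2 ≤ 1 / p * (1 / 3) := by
    have h1 : ∀ t ∈ Finset.Icc 1 L, ∑ j ∈ Finset.range t,
        Dbl_q p t (j + 1) ^ 2 / (3 * ((j + 1 : ℕ) : ℚ) + 1) ^ 2 ≤
        ∑ j ∈ Finset.range L, Dbl_q p t (j + 1) / (3 * ((j + 1 : ℕ) : ℚ) + 1) ^ 2 := by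
      intro t ht
      have ht' := (Finset.mem_Icc.1 ht).2
      calc ∑ j ∈ Finset.range t, Dbl_q p t (j + 1) ^ 2 / (3 * ((j + 1 : ℕ) : ℚ) + 1) ^ 2
          ≤ ∑ j ∈ Finset.range t, Dbl_q p t (j + 1) / (3 * ((j + 1 : ℕ) : ℚ) + 1) ^ 2 := by
            refine Finset.sum_le_sum fun j _ => ?_
            refine div_le_div_of_nonneg_right ?_ (by positivity)
            have h3 := hq0 t (j + 1)
            have h4 := hq1 t (j + 1)
            nlinarith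
        _ ≤ _ := Finset.sum_le_sum_of_subset_of_nonneg (Finset.range_mono ht')
            fun j _ _ => div_nonneg (hq0 t (j + 1)) (by positivity)
    have h2 : Finset.Icc 1 L ⊆ Finset.range (L + 1) := by
      intro t ht
      have := Finset.mem_Icc.1 ht
      exact Finset.mem_range.2 (by omega)
    calc ∑ t ∈ Finset.Icc 1 L, ∑ j ∈ Finset.range t,
          Dbl_q p t (j + 1) ^ 2 / (3 * ((j + 1 : ℕ) : ℚ) + 1) ^ 2
        ≤ ∑ t ∈ Finset.Icc 1 L, ∑ j ∈ Finset.range L,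
          Dbl_q p t (j + 1) / (3 * ((j + 1 : ℕ) : ℚ) + 1) ^ 2 := Finset.sum_le_sum h1
      _ ≤ ∑ t ∈ Finset.range (L + 1), ∑ j ∈ Finset.range L,
          Dbl_q p t (j + 1) / (3 * ((j + 1 : ℕ) : ℚ) + 1) ^ 2 :=
          Finset.sum_le_sum_of_subset_of_nonneg h2 fun t _ _ =>
            Finset.sum_nonneg fun j _ => div_nonneg (hq0 t (j + 1)) (by positivity)
      _ = ∑ j ∈ Finset.range L, (∑ t ∈ Finset.range (L + 1), Dbl_q p t (j + 1)) *
          (1 / (3 * ((j + 1 : ℕ) : ℚ) + 1) ^ 2) := by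
          rw [Finset.sum_comm]
          refine Finset.sum_congr rfl fun j _ => ?_
          rw [Finset.sum_mul]
          refine Finset.sum_congr rfl fun t _ => ?_
          rw [mul_one_div]
      _ ≤ ∑ j ∈ Finset.range L, 1 / p * (1 / (3 * ((j + 1 : ℕ) : ℚ) + 1) ^ 2) := by
          refine Finset.sum_le_sum fun j _ => ?_
          exact mul_le_mul_of_nonneg_right (neg_le hp0 hp1 L (j + 1)) (by positivity)
      _ = 1 / p * ∑ j ∈ Finset.range L, 1 / (3 * ((j + 1 : ℕ) : ℚ) + 1) ^ 2 := by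
          rw [Finset.mul_sum]
      _ ≤ 1 / p * (1 / 3) :=
          mul_le_mul_of_nonneg_left (Dbl_tele L) (by positivity)
  have hC : 1 / p ≤ 31 / 16 := by
    rw [div_le_div_iff₀ hp0 (by norm_num)]
    linarith
  linarith

end Pool.Agent.SO
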