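import Pool.Agent.H.MP_53e59f_lc.SO.Cov2

/-!
# The final count

From `Bad_card`. With `N = n + m + 1` and `K ≥ 15 c log 2 (2 N)`: `20 ^ K * N ^ c ≤ 21 ^ K`, since `2 * 20 ^ 15 ≤ 21 ^ 15`.
-/

namespace Pool.Agent.SO

open Pool.Agent.SN

theorem Few_pow {k K : ℕ} (h : 15 * k ≤ K) : 20 ^ K * 2 ^ k ≤ 21 ^ K := by
  obtain ⟨d, rfl⟩ := Nat.exists_eq_add_of_le h
  calc 20 ^ (15 * k + d) * 2 ^ k = (2 * 20 ^ 15) ^ k * 20 ^ d := by
        rw [pow_add, pow_mul, mul_pow]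
        ring
    _ ≤ (21 ^ 15) ^ k * 21 ^ d :=
        Nat.mul_le_mul (Nat.pow_le_pow_left (by norm_num) k) (Nat.pow_le_pow_left (by norm_num) d)
    _ = 21 ^ (15 * k + d) := by rw [pow_add, pow_mul]

theorem few {s n m K c : ℕ} (hK : 15 * ((c + 2) * Nat.log 2 (2 * (n + m) + 2)) ≤ K)
    (hs : 16 ≤ s) : (Bad s n m K).ncard * (n + m + 1) ^ c ≤ s ^ (n + m) := by
  obtain ⟨N, hN⟩ : ∃ N, N = n + m + 1 := ⟨_, rfl⟩
  have h1 : Nat.log 2 (2 * (n + m) + 2) = Nat.log 2 N + 1 := by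
    have h2 : 2 * (n + m) + 2 = N * 2 := by omega
    rw [h2, Nat.log_mul_base (by norm_num) (by omega)]
  have h3 : N ≤ 2 ^ (Nat.log 2 N + 1) := (Nat.lt_pow_succ_log_self (by norm_num) N).le
  have h4 : 20 ^ K * N ^ (c + 2) ≤ 21 ^ K := by
    calc 20 ^ K * N ^ (c + 2) ≤ 20 ^ K * (2 ^ (Nat.log 2 N + 1)) ^ (c + 2) :=
          Nat.mul_le_mul_left _ (Nat.pow_le_pow_left h3 _)
      _ = 20 ^ K * 2 ^ ((c + 2) * (Nat.log 2 N + 1)) := by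
          rw [← pow_mul, mul_comm (Nat.log 2 N + 1)]
      _ ≤ 21 ^ K := Few_pow (by rw [← h1]; exact hK)
  have h5 := Bad_card hs n m K
  have h6 : (n + 1) * (m + 1) ≤ N ^ 2 := by
    rw [pow_two]
    exact Nat.mul_le_mul (by omega) (by omega)
  rw [← hN]
  have h8 : (20 ^ K * N ^ 2) * ((Bad s n m K).ncard * N ^ c) ≤ (20 ^ K * N ^ 2) * s ^ (n + m) := by
    calc (20 ^ K * N ^ 2) * ((Bad s n m K).ncard * N ^ c) =
          (20 ^ K * N ^ (c + 2)) * (Bad s n m K).ncard := by ring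
      _ ≤ 21 ^ K * (Bad s n m K).ncard := Nat.mul_le_mul_right _ h4
      _ ≤ 20 ^ K * ((n + 1) * (m + 1) * s ^ (n + m)) := h5
      _ ≤ 20 ^ K * (N ^ 2 * s ^ (n + m)) :=
          Nat.mul_le_mul_left _ (Nat.mul_le_mul_right _ h6)
      _ = (20 ^ K * N ^ 2) * s ^ (n + m) := by ring
  exact Nat.le_of_mul_le_mul_left h8 (by rw [hN]; positivity)

end Pool.Agent.SO
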