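import Mathlib

/-!
# A bound for negative binomial sums

Let `q t j = t.choose j * p ^ j * (1 - p) ^ (t - j)`, `T L j = ∑ t ∈ range (L + 1), q t j`. Pascal:
`q (t + 1) (j + 1) = (1 - p) * q t (j + 1) + p * q t j` (for all `t`, `j`; for `t ≤ j` the first term is 0), `q (t + 1) 0 = (1 - p) * q t 0`.
Induction on `L` for all `j`: `T (L + 1) (j + 1) = (1 - p) * T L (j + 1) + p * T L j ≤ (1 - p) / p + 1 = 1 / p` and
`T (L + 1) 0 = 1 + (1 - p) * T L 0 ≤ 1 / p`.
-/

namespace Pool.Agent.SO

theorem neg_le {p : ℚ} (hp : 0 < p) (hp1 : p ≤ 1) (L j : ℕ) :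
    ∑ t ∈ Finset.range (L + 1), (t.choose j : ℚ) * p ^ j * (1 - p) ^ (t - j) ≤ 1 / p := by
  have h1p : 0 ≤ 1 - p := by linarith
  have hone : (1 - p) * (1 / p) + p * (1 / p) = 1 / p := by ring
  have hpp : p * (1 / p) = 1 := by
    rw [mul_one_div, div_self hp.ne']
  have hinv : 0 ≤ 1 / p := by positivity
  have pas : ∀ t j : ℕ, ((t + 1).choose (j + 1) : ℚ) * p ^ (j + 1) * (1 - p) ^ (t + 1 - (j + 1)) =
      (1 - p) * ((t.choose (j + 1) : ℚ) * p ^ (j + 1) * (1 - p) ^ (t - (j + 1))) +
        p * ((t.choose j : ℚ) * p ^ j * (1 - p) ^ (t - j)) := by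
    intro t j
    rw [Nat.choose_succ_succ, Nat.succ_sub_succ, Nat.cast_add]
    rcases Nat.lt_or_ge j t with h | h
    · have e : t - j = t - (j + 1) + 1 := by omega
      rw [e]
      ring
    · have e : t.choose (j + 1) = 0 := Nat.choose_eq_zero_of_lt (by omega)
      rw [e]
      push_cast
      ring
  induction L generalizing j with
  | zero =>
    rw [zero_add, Finset.sum_range_one]
    rcases j with _ | j
    · simp only [Nat.choose_self, Nat.cast_one, pow_zero, mul_one, Nat.sub_zero]
      rw [le_div_iff₀ hp]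
      linarith
    · simp only [Nat.choose_zero_succ, Nat.cast_zero, zero_mul]
      exact hinv
  | succ L ih =>
    rw [Finset.sum_range_succ']
    rcases j with _ | j
    · have e : ∀ t ∈ Finset.range (L + 1), ((t + 1).choose 0 : ℚ) * p ^ 0 * (1 - p) ^ (t + 1 - 0) =
          (1 - p) * ((t.choose 0 : ℚ) * p ^ 0 * (1 - p) ^ (t - 0)) := by
        intro t _
        simp only [Nat.choose_zero_right, Nat.cast_one, pow_zero, mul_one, one_mul, Nat.sub_zero, pow_succ]
        ring
      rw [Finset.sum_congr rfl e, ← Finset.mul_sum]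
      have h0 := mul_le_mul_of_nonneg_left (ih 0) h1p
      simp only [Nat.choose_self, Nat.cast_one, pow_zero, mul_one, Nat.sub_zero] at h0 ⊢
      linarith
    · rw [Finset.sum_congr rfl (fun t _ => pas t j), Finset.sum_add_distrib, ← Finset.mul_sum,
        ← Finset.mul_sum]
      have h0 := mul_le_mul_of_nonneg_left (ih (j + 1)) h1p
      have h2 := mul_le_mul_of_nonneg_left (ih j) hp.le
      simp only [Nat.choose_zero_succ, Nat.cast_zero, zero_mul, add_zero]
      linarith

end Pool.Agent.SO
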