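import Pool.Agent.H.MP_53e59f_lc.SO.Split
import Pool.Agent.H.MP_53e59f_lc.SO.Dbl
import Pool.Agent.H.MP_53e59f_lc.SN.Four2

/-!
# The sum of the return probabilities

`s = g + e`, `g = 16 * (s / 16)`, `e = s % 16 ≤ 15`, `p = g / s ≥ 16 / 31`, `1 - p = e / s`. By `RT_split` and `RT_card` (for `g`):
`RT s t ≤ ∑ j, (t.choose j)^2 (e^(t-j))^2 (g^2)^j / (3 j + 1)^2 = (s^2)^t ∑ j, (t.choose j * p^j * (1-p)^(t-j))^2 / (3 j + 1)^2`.
Then `dbl_le`.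
-/

namespace Pool.Agent.SO

open Pool.Agent.SN

theorem RT_sum {s : ℕ} (hs : 16 ≤ s) (L : ℕ) :
    ∑ t ∈ Finset.Icc 1 L, ((RT s t).ncard : ℚ) / ((s : ℚ) ^ 2) ^ t ≤ 20 / 21 := by
  obtain ⟨g, hg⟩ : ∃ g, g = 16 * (s / 16) := ⟨_, rfl⟩
  obtain ⟨e, he⟩ : ∃ e, e = s % 16 := ⟨_, rfl⟩
  have hsum : g + e = s := by omega
  have hdvd : 16 ∣ g := ⟨s / 16, hg⟩
  have he15 : e ≤ 15 := by omega
  have hg16 : 16 ≤ g := by omega
  have hs0 : (0 : ℚ) < s := by exact_mod_cast (by omega : 0 < s)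
  have hq : (g : ℚ) + e = s := by exact_mod_cast hsum
  have hp : (16 : ℚ) / 31 ≤ (g : ℚ) / s := by
    rw [div_le_div_iff₀ (by norm_num) hs0]
    have h1 : 16 * s ≤ g * 31 := by omega
    exact_mod_cast h1
  have hp1 : (g : ℚ) / s ≤ 1 := by
    rw [div_le_one hs0]
    have h1 : g ≤ s := by omega
    exact_mod_cast h1
  refine le_trans (Finset.sum_le_sum fun t _ => ?_) (dbl_le hp hp1 L)
  have e1 : 1 - (g : ℚ) / s = e / s := by
    rw [eq_div_iff hs0.ne', sub_mul, div_mul_cancel₀ _ hs0.ne', one_mul]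
    linarith
  rw [e1, div_le_iff₀ (by positivity), Finset.sum_mul]
  have h1 := RT_split g e t
  rw [hsum] at h1
  have h2 : ((RT s t).ncard : ℚ) ≤ ∑ j ∈ Finset.range (t + 1),
      (t.choose j : ℚ) ^ 2 * ((e : ℚ) ^ (t - j)) ^ 2 * (RT g j).ncard := by
    exact_mod_cast h1
  refine h2.trans (Finset.sum_le_sum fun j hj => ?_)
  have hjt : j ≤ t := by
    have := Finset.mem_range.1 hj
    omega
  have h3 : ((RT g j).ncard : ℚ) * (3 * j + 1) ^ 2 ≤ ((g : ℚ) ^ 2) ^ j := by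
    exact_mod_cast RT_card hdvd j
  have h4 : ((RT g j).ncard : ℚ) ≤ ((g : ℚ) ^ 2) ^ j / (3 * j + 1) ^ 2 := by
    rw [le_div_iff₀ (by positivity)]
    exact h3
  have h5 : ((t.choose j : ℚ) * ((g : ℚ) / s) ^ j * ((e : ℚ) / s) ^ (t - j)) ^ 2 /
      (3 * j + 1) ^ 2 * ((s : ℚ) ^ 2) ^ t =
      (t.choose j : ℚ) ^ 2 * ((e : ℚ) ^ (t - j)) ^ 2 *
        (((g : ℚ) ^ 2) ^ j / (3 * j + 1) ^ 2) := by
    have h6 : (s : ℚ) ^ t = s ^ j * s ^ (t - j) := by rw [← pow_add, Nat.add_sub_cancel' hjt]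
    have h7 : ((s : ℚ) ^ 2) ^ t = (s ^ j * s ^ (t - j)) ^ 2 := by
      rw [← h6, ← pow_mul, ← pow_mul, mul_comm]
    have h8 : ((g : ℚ) ^ 2) ^ j = (g ^ j) ^ 2 := by rw [← pow_mul, ← pow_mul, mul_comm]
    have h9 : (s : ℚ) ^ j ≠ 0 := by positivity
    have h10 : (s : ℚ) ^ (t - j) ≠ 0 := by positivity
    rw [h7, h8, div_pow, div_pow]
    field_simp
  rw [h5]
  exact mul_le_mul_of_nonneg_left h4 (by positivity)

end Pool.Agent.SO
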