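import Pool.Agent.H.MP_53e59f_lc.SN.First

/-!
# Returning lists over two parts of the alphabet

A word `w` over `Fin (g + e)` is determined by its pattern (`Fin t → Bool`, or a list of booleans: which letters are `< g`), the
subword of the letters `< g` and the subword of the other letters. If the two words of `z` are permutations of each other,
both have the same number `j` of letters `< g`, and the two subwords of the letters `< g` are permutations of each other, so
their zip is in `RT g j`. Number of patterns with `j` ones: `t.choose j` for each of the two words; the subwords of the other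
letters: `e ^ (t - j)` each.
-/

namespace Pool.Agent.SO

open Pool.Agent.SN

private def Split_mrg {β γ : Type} : List Bool → List β → List γ → List (β ⊕ γ)
  | [], _, _ => []
  | true :: p, a :: u, v => Sum.inl a :: Split_mrg p u v
  | false :: p, u, b :: v => Sum.inr b :: Split_mrg p u v
  | true :: _, [], _ => []
  | false :: _, _, [] => []

private theorem Split_r {β γ : Type} (a : β) (w : List (β ⊕ γ)) :
    (Sum.inl a :: w).filterMap Sum.getRight? = w.filterMap Sum.getRight? :=
  List.filterMap_cons_none rfl

private theorem Split_l {β γ : Type} (a : γ) (w : List (β ⊕ γ)) :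
    (Sum.inr a :: w).filterMap Sum.getLeft? = w.filterMap Sum.getLeft? :=
  List.filterMap_cons_none rfl

private theorem Split_mrg_eq {β γ : Type} (w : List (β ⊕ γ)) :
    Split_mrg (w.map Sum.isLeft) (w.filterMap Sum.getLeft?) (w.filterMap Sum.getRight?) = w := by
  induction w with
  | nil => rfl
  | cons a w ih =>
    cases a with
    | inl a =>
      rw [Split_r]
      simp [Split_mrg, ih]
    | inr a =>
      rw [Split_l]
      simp [Split_mrg, ih]

private theorem Split_len {β γ : Type} (w : List (β ⊕ γ)) :
    (w.filterMap Sum.getLeft?).length + (w.filterMap Sum.getRight?).length = w.length := by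
  induction w with
  | nil => rfl
  | cons a w ih =>
    cases a with
    | inl a =>
      rw [Split_r]
      simp
      omega
    | inr a =>
      rw [Split_l]
      simp
      omega

private theorem Split_cnt {β γ : Type} (w : List (β ⊕ γ)) :
    (w.map Sum.isLeft).countP id = (w.filterMap Sum.getLeft?).length := by
  induction w with
  | nil => rfl
  | cons a w ih =>
    cases a with
    | inl a => simp_all
    | inr a =>
      rw [Split_l]
      simp_all

private theorem Split_count {α : Type} {t : ℕ} (f : Fin t → α) (p : α → Bool) :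
    (List.ofFn f).countP p = (Finset.univ.filter fun i => p (f i) = true).card := by
  have h : ((List.ofFn f : List α) : Multiset α) = (Finset.univ : Finset (Fin t)).val.map f :=
    (Fin.univ_val_map f).symm
  have h1 : Multiset.countP (fun a => p a = true) ((List.ofFn f : List α) : Multiset α) =
      (List.ofFn f).countP p := by
    rw [Multiset.coe_countP]
    congr 1
    funext a
    simp
  rw [← h1, h, Multiset.countP_map]
  rfl

private theorem Split_pat_fin (t j : ℕ) :
    {p : List Bool | p.length = t ∧ p.countP id = j}.Finite :=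
  (W_fin Bool t).subset fun _ h => h.1

private theorem Split_pat_card (t j : ℕ) :
    {p : List Bool | p.length = t ∧ p.countP id = j}.ncard ≤ t.choose j := by
  classical
  have hsub : {p : List Bool | p.length = t ∧ p.countP id = j} ⊆
      (fun S : Finset (Fin t) => List.ofFn fun i => decide (i ∈ S)) ''
        ((Finset.powersetCard j (Finset.univ : Finset (Fin t)) : Finset (Finset (Fin t))) :
          Set (Finset (Fin t))) := by
    rintro p ⟨hlen, hj⟩
    subst hlen
    refine ⟨Finset.univ.filter fun i => p.get i = true, ?_, ?_⟩
    · rw [Finset.mem_coe, Finset.mem_powersetCard]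
      refine ⟨Finset.subset_univ _, ?_⟩
      have h1 := Split_count p.get id
      rw [List.ofFn_get, hj] at h1
      exact h1.symm
    · have h2 : (fun i : Fin p.length =>
          decide (i ∈ Finset.univ.filter fun i => p.get i = true)) = p.get := by
        funext i
        simp
      exact (congrArg List.ofFn h2).trans (List.ofFn_get p)
  refine (Set.ncard_le_ncard hsub ((Finset.finite_toSet _).image _)).trans
    ((Set.ncard_image_le (Finset.finite_toSet _)).trans ?_)
  rw [Set.ncard_coe_finset, Finset.card_powersetCard, Finset.card_univ, Fintype.card_fin]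

private def Split_F (g e : ℕ)
    (q : ((List Bool × List Bool) × (List (Fin e) × List (Fin e))) × List (Fin g × Fin g)) :
    List (Fin (g + e) × Fin (g + e)) :=
  List.zip ((Split_mrg q.1.1.1 (q.2.map Prod.fst) q.1.2.1).map finSumFinEquiv)
    ((Split_mrg q.1.1.2 (q.2.map Prod.snd) q.1.2.2).map finSumFinEquiv)

theorem RT_split (g e t : ℕ) :
    (RT (g + e) t).ncard ≤
      ∑ j ∈ Finset.range (t + 1), (t.choose j) ^ 2 * (e ^ (t - j)) ^ 2 * (RT g j).ncard := by
  classical
  obtain ⟨P, hP⟩ : ∃ P : ℕ → Set (List Bool),
      P = fun j => {p : List Bool | p.length = t ∧ p.countP id = j} := ⟨_, rfl⟩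
  have hPf : ∀ j, (P j).Finite := fun j => by rw [hP]; exact Split_pat_fin t j
  have hPc : ∀ j, (P j).ncard ≤ t.choose j := fun j => by rw [hP]; exact Split_pat_card t j
  obtain ⟨D, hD⟩ : ∃ D : ℕ → Set (((List Bool × List Bool) × (List (Fin e) × List (Fin e))) ×
      List (Fin g × Fin g)), D = fun j => ((P j ×ˢ P j) ×ˢ (W (Fin e) (t - j) ×ˢ W (Fin e) (t - j)))
        ×ˢ RT g j := ⟨_, rfl⟩
  have hDf : ∀ j, (D j).Finite := fun j => by
    rw [hD]
    exact (((hPf j).prod (hPf j)).prod ((W_fin _ _).prod (W_fin _ _))).prod (RT_fin g j)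
  have hDc : ∀ j, (D j).ncard ≤ (t.choose j) ^ 2 * (e ^ (t - j)) ^ 2 * (RT g j).ncard := fun j => by
    rw [hD]
    simp only [Set.ncard_prod, W_card, Nat.card_eq_fintype_card, Fintype.card_fin]
    refine Nat.mul_le_mul_right _ ?_
    rw [pow_two, pow_two]
    exact Nat.mul_le_mul_right _ (Nat.mul_le_mul (hPc j) (hPc j))
  have hsub : RT (g + e) t ⊆ ⋃ j ∈ Finset.range (t + 1), Split_F g e '' D j := by
    rintro z ⟨hlen, hret⟩
    obtain ⟨x1, hx1⟩ : ∃ x1, x1 = (z.map Prod.fst).map finSumFinEquiv.symm := ⟨_, rfl⟩
    obtain ⟨x2, hx2⟩ : ∃ x2, x2 = (z.map Prod.snd).map finSumFinEquiv.symm := ⟨_, rfl⟩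
    have hp : x1.Perm x2 := by
      rw [hx1, hx2]
      exact List.Perm.map _ hret
    have hl1 : x1.length = t := by rw [hx1, List.length_map, List.length_map, hlen]
    have hl2 : x2.length = t := by rw [hx2, List.length_map, List.length_map, hlen]
    have hu : (x1.filterMap Sum.getLeft?).Perm (x2.filterMap Sum.getLeft?) := hp.filterMap _
    have hj : (x2.filterMap Sum.getLeft?).length = (x1.filterMap Sum.getLeft?).length :=
      hu.length_eq.symm
    have h1 := Split_len x1
    have h2 := Split_len x2
    have hf : ((x1.filterMap Sum.getLeft?).zip (x2.filterMap Sum.getLeft?)).map Prod.fst =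
        x1.filterMap Sum.getLeft? := List.map_fst_zip (by omega)
    have hs : ((x1.filterMap Sum.getLeft?).zip (x2.filterMap Sum.getLeft?)).map Prod.snd =
        x2.filterMap Sum.getLeft? := List.map_snd_zip (by omega)
    rw [Set.mem_iUnion₂]
    refine ⟨(x1.filterMap Sum.getLeft?).length, Finset.mem_range.2 (by omega),
      (((x1.map Sum.isLeft, x2.map Sum.isLeft),
        (x1.filterMap Sum.getRight?, x2.filterMap Sum.getRight?)),
        (x1.filterMap Sum.getLeft?).zip (x2.filterMap Sum.getLeft?)), ?_, ?_⟩
    · rw [hD, hP]
      refine ⟨⟨⟨⟨?_, ?_⟩, ⟨?_, ?_⟩⟩, ⟨?_, ?_⟩⟩, ?_, ?_⟩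
      · rw [List.length_map, hl1]
      · exact Split_cnt x1
      · rw [List.length_map, hl2]
      · exact (Split_cnt x2).trans hj
      · show (x1.filterMap Sum.getRight?).length = t - (x1.filterMap Sum.getLeft?).length
        omega
      · show (x2.filterMap Sum.getRight?).length = t - (x1.filterMap Sum.getLeft?).length
        omega
      · show ((x1.filterMap Sum.getLeft?).zip (x2.filterMap Sum.getLeft?)).length = _
        rw [List.length_zip, hj, min_self]
      · show (((x1.filterMap Sum.getLeft?).zip (x2.filterMap Sum.getLeft?)).map Prod.fst).Perm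
          (((x1.filterMap Sum.getLeft?).zip (x2.filterMap Sum.getLeft?)).map Prod.snd)
        rw [hf, hs]
        exact hu
    · show List.zip ((Split_mrg (x1.map Sum.isLeft)
          (((x1.filterMap Sum.getLeft?).zip (x2.filterMap Sum.getLeft?)).map Prod.fst)
          (x1.filterMap Sum.getRight?)).map finSumFinEquiv)
        ((Split_mrg (x2.map Sum.isLeft)
          (((x1.filterMap Sum.getLeft?).zip (x2.filterMap Sum.getLeft?)).map Prod.snd)
          (x2.filterMap Sum.getRight?)).map finSumFinEquiv) = z
      rw [hf, hs, Split_mrg_eq, Split_mrg_eq, hx1, hx2]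
      simp only [List.map_map]
      have h3 : (z.map (finSumFinEquiv ∘ finSumFinEquiv.symm ∘ Prod.fst)) = z.map Prod.fst := by
        congr 1
        funext a
        simp
      have h4 : (z.map (finSumFinEquiv ∘ finSumFinEquiv.symm ∘ Prod.snd)) = z.map Prod.snd := by
        congr 1
        funext a
        simp
      rw [h3, h4]
      exact (List.zip_of_prod rfl rfl).symm
  calc (RT (g + e) t).ncard ≤ (⋃ j ∈ Finset.range (t + 1), Split_F g e '' D j).ncard :=
        Set.ncard_le_ncard hsub (Set.Finite.biUnion (Finset.finite_toSet _)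
          fun j _ => (hDf j).image _)
    _ ≤ ∑ j ∈ Finset.range (t + 1), (Split_F g e '' D j).ncard :=
        Finset.set_ncard_biUnion_le _ _
    _ ≤ _ := Finset.sum_le_sum fun j _ => (Set.ncard_image_le (hDf j)).trans (hDc j)

end Pool.Agent.SO
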